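import Pool.Agent.H45.CG.Iface
import Pool.Graph.R_seed8.H14R2.LL.FINH

/-!
Part HIGH of the project CG (helper45), MP_75608d_al.
-/

set_option autoImplicit false

namespace H87CG
open RC14 RC852 TE852 LL14 LG45 Finset Equiv Filter CG45
open scoped InnerProductSpace

section
variable {V : Type*} [NormedAddCommGroup V] [InnerProductSpace ℂ V] [FiniteDimensional ℂ V]

theorem pow_eig (A : Module.End ℂ V) (v : V) (μ : ℂ) (h : A v = μ • v) (m : ℕ) :
    (A ^ m) v = (μ ^ m) • v := by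
  induction m with
  | zero => simp
  | succ m ih =>
    rw [pow_succ', Module.End.mul_apply, ih, map_smul, h, smul_smul, pow_succ]

theorem pow_pos_form (A : Module.End ℂ V) (hA : A.IsSymmetric) (L : ℕ) (v : V) :
    0 ≤ (⟪(A ^ (2 * L)) v, v⟫_ℂ).re := by
  obtain ⟨n, b, μ, h1, -⟩ := EXB.diag A hA
  have h2 : ∀ i, (A ^ (2 * L)) (b i) = ((μ i ^ (2 * L) : ℝ) : ℂ) • b i := by
    intro i
    rw [pow_eig A _ _ (h1 i)]
    push_cast
    rfl
  rw [EXB.quad b (A ^ (2 * L)) (fun i => μ i ^ (2 * L)) h2 v]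
  refine Finset.sum_nonneg fun i _ => ?_
  have : 0 ≤ μ i ^ (2 * L) := by
    rw [pow_mul]; positivity
  positivity

/-- Jensen for even powers -/
theorem pow_jensen (A : Module.End ℂ V) (hA : A.IsSymmetric) (L : ℕ) (v : V) (hv : ‖v‖ = 1) :
    (⟪A v, v⟫_ℂ).re ^ (2 * L) ≤ (⟪(A ^ (2 * L)) v, v⟫_ℂ).re := by
  obtain ⟨n, b, μ, h1, -⟩ := EXB.diag A hA
  have h2 : ∀ i, (A ^ (2 * L)) (b i) = ((μ i ^ (2 * L) : ℝ) : ℂ) • b i := by
    intro i
    rw [pow_eig A _ _ (h1 i)]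
    push_cast
    rfl
  rw [EXB.quad b (A ^ (2 * L)) (fun i => μ i ^ (2 * L)) h2 v, EXB.quad b A μ h1 v]
  have hconv : ConvexOn ℝ Set.univ (fun x : ℝ => x ^ (2 * L)) := (even_two_mul L).convexOn_pow
  have h := hconv.map_sum_le (t := Finset.univ) (w := fun i => ‖⟪b i, v⟫_ℂ‖ ^ 2) (p := μ)
    (fun i _ => by positivity) (EXB.sum_w b v hv) (fun i _ => Set.mem_univ _)
  simp only [smul_eq_mul] at h
  calc (∑ i, μ i * ‖⟪b i, v⟫_ℂ‖ ^ 2) ^ (2 * L) = (∑ i, ‖⟪b i, v⟫_ℂ‖ ^ 2 * μ i) ^ (2 * L) := by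
        congr 1; exact Finset.sum_congr rfl fun i _ => mul_comm _ _
    _ ≤ ∑ i, ‖⟪b i, v⟫_ℂ‖ ^ 2 * μ i ^ (2 * L) := h
    _ = _ := Finset.sum_congr rfl fun i _ => mul_comm _ _

theorem genU {G : Type*} [Group G] [Fintype G] (ρ : G →* (V ≃ₗᵢ[ℂ] V)) (W : Submodule ℂ V) (hW : Inv ρ W)
    (k : ℕ) (hk : 1 ≤ k) (x : Fin k → G) (s : ℝ) (hs1 : s ≤ 1) (L : ℕ)
    (U : Submodule ℂ V) (hU : U ≤ W) (hUE : ∀ u ∈ U, En ρ x u ≤ 4 * k * s * ‖u‖ ^ 2) :
    (Module.finrank ℂ U : ℝ) * (1 - s) ^ (2 * L) ≤ RtL ρ W hW x (2 * L) := by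
  have hk' : (1 : ℝ) ≤ k := by exact_mod_cast hk
  have hk0 : (0 : ℝ) < k := by linarith
  unfold RtL
  set T : Module.End ℂ W := TL (res ρ W hW) x with hT
  have hTs : T.IsSymmetric := TL_symm _ x
  -- the energy
  have hEn : ∀ v : W, En (res ρ W hW) x v = En ρ x (v : V) := by
    intro v
    unfold En
    refine Finset.sum_congr rfl fun i _ => ?_
    rw [← res_apply ρ W hW (x i) v, ← Submodule.coe_sub, Submodule.coe_norm]
  set U' : Submodule ℂ W := U.comap W.subtype with hU'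
  have hfr : Module.finrank ℂ U' = Module.finrank ℂ U :=
    LinearEquiv.finrank_eq (Submodule.comapSubtypeEquivOfLe hU)
  have h1 := sum_le_rtr (T ^ (2 * L)) (fun v => pow_pos_form T hTs L v) U' ((1 - s) ^ (2 * L)) (by
    intro u hu hu1
    refine le_trans ?_ (pow_jensen T hTs L u hu1)
    apply pow_le_pow_left₀ (by linarith)
    have h2 := TL_energy (res ρ W hW) hk x u
    rw [hu1, hEn] at h2
    have h3 := hUE (u : V) hu
    have hn1 : ‖(u : V)‖ = 1 := by rw [← hu1, Submodule.coe_norm]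
    rw [hn1] at h3
    have h4 : En ρ x (u : V) / (4 * k) ≤ s := by
      rw [div_le_iff₀ (by positivity)]
      linarith
    linarith)
  rw [hfr] at h1
  exact h1

theorem trlW (n m k F : ℕ) (hk : 1 ≤ k) (hmF : m ≤ F) (y : Fin k → Alt n) (c : ℝ) (hc0 : 0 ≤ c)
    (hgap : ∀ f : RC14.V m n, ∑ a, f a = 0 → c * ‖f‖ ^ 2 ≤ En (repA m n) y f) (L : ℕ)
    (ρ : Alt n →* (V ≃ₗᵢ[ℂ] V)) (W : Submodule ℂ V) (hW : Inv ρ W) (β : ℝ) (hβ : 0 ≤ β)
    (hchar : ∀ g : Alt n, nfix (g : Equiv.Perm (Fin n)) ≤ F →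
      ‖rchr ρ W hW g‖ ≤ β * Module.finrank ℂ W) :
    RtL ρ W hW y L ≤ (β + (1 + Fintype.card (Tup m n) * Real.exp (-(c * L / (4 * k)))) /
      (F.descFactorial m : ℝ)) * Module.finrank ℂ W :=
  TRL n m k F hk hmF y c hc0 hgap L (res ρ W hW) β hβ hchar

end

theorem core (n r m k : ℕ) (c3 : ℝ) (h3 : 0 < c3)
    (hch : ∀ (W : Submodule ℂ (FA n)) (hW : Irr (RR n) W), W ≤ HH r n →
      ∀ g : Alt n, 2 * nfix (g : Perm (Fin n)) ≤ n →
        ‖rchr (RR n) W hW.2.1 g‖ ≤ Real.exp (-(c3 * n)) * Module.finrank ℂ W)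
    (hmF : m ≤ n / 2) (hmr : m ≤ r) (hmn : m + 2 ≤ n)
    (hX : (Fintype.card (Tup m n) : ℝ) ≤ Real.exp (3 * c3 * n))
    (hFm : 2 * Real.exp (c3 * n) ≤ ((n / 2).descFactorial m : ℝ))
    (hk : 1 ≤ k) (c : ℝ) (hc : 0 < c) (L : ℕ) (hL1 : 6 * c3 * n * k / c ≤ (L : ℝ))
    (y : Fin k → Alt n) (hy : Good1 n r c y) (W : Submodule ℂ (FA n)) (hW : Irr (RR n) W)
    (hWL : W ≤ HH r n) :
    RtL (RR n) W hW.2.1 y (2 * L) ≤
        (2 * Real.exp (-(c3 * n))) * Module.finrank ℂ W := by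
  have hk' : (1 : ℝ) ≤ k := by exact_mod_cast hk
  have hk0 : (0 : ℝ) < k := by linarith
  have hgap : ∀ f : RC14.V m n, ∑ a, f a = 0 → c * ‖f‖ ^ 2 ≤ En (repA m n) y f :=
    FRV n m k hmn y c (fun j h1 h2 f hf => hy j h1 (h2.trans hmr) f hf)
  have hexp : 3 * c3 * n ≤ c * ((2 * L : ℕ) : ℝ) / (4 * k) := by
    rw [le_div_iff₀ (by positivity)]
    push_cast
    have : c * (6 * c3 * n * k / c) ≤ c * L := by gcongr
    rw [mul_div_cancel₀ _ hc.ne'] at this
    nlinarith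
  have h1 := trlW n m k (n / 2) hk hmF y c hc.le hgap (2 * L) (RR n) W hW.2.1
    (Real.exp (-(c3 * n))) (by positivity) (fun g hg =>
      hch W hW hWL g (by omega))
  refine h1.trans ?_
  have h2 : Real.exp (-(c * ((2 * L : ℕ) : ℝ) / (4 * k))) ≤ Real.exp (-(3 * c3 * n)) := by
    apply Real.exp_le_exp.mpr
    linarith
  have h3 : (Fintype.card (Tup m n) : ℝ) * Real.exp (-(c * ((2 * L : ℕ) : ℝ) / (4 * k))) ≤
      1 := by
    calc _ ≤ Real.exp (3 * c3 * n) * Real.exp (-(3 * c3 * n)) := by gcongr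
      _ = 1 := by rw [← Real.exp_add]; simp
  have h4 : (0 : ℝ) < (n / 2).descFactorial m := lt_of_lt_of_le (by positivity) hFm
  have h5 : (1 + (Fintype.card (Tup m n) : ℝ) *
      Real.exp (-(c * ((2 * L : ℕ) : ℝ) / (4 * k)))) /
      ((n / 2).descFactorial m : ℝ) ≤ Real.exp (-(c3 * n)) := by
    rw [div_le_iff₀ h4]
    calc 1 + (Fintype.card (Tup m n) : ℝ) *
        Real.exp (-(c * ((2 * L : ℕ) : ℝ) / (4 * k))) ≤ 2 := by linarith
      _ = Real.exp (-(c3 * n)) * (2 * Real.exp (c3 * n)) := by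
          rw [mul_left_comm, ← Real.exp_add]; simp
      _ ≤ Real.exp (-(c3 * n)) * ((n / 2).descFactorial m : ℝ) := by gcongr
  gcongr
  linarith

theorem part : StmtHIGH := by
  intro D1 hD
  obtain ⟨c3', h3', hch'⟩ := HCHAR D1 hD
  set c3 : ℝ := min c3' 1 with hc3
  have h3 : 0 < c3 := lt_min h3' one_pos
  have h31 : c3 ≤ 1 := min_le_right _ _
  refine ⟨1 / 12, c3 / 4, by norm_num, by norm_num, by positivity, ?_⟩
  have t2 : Tendsto (fun n : ℕ => (n : ℝ)) atTop atTop := tendsto_natCast_atTop_atTop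
  filter_upwards [hch', FINHx.ev D1 hD c3 h3 h31, t2.eventually_ge_atTop (16 / c3)] with n hch hm hn
  intro r hr h2r k hk x t ht htk hgood W hW hWL U hU hUE
  obtain ⟨m, hmF, hmr, hmn, hX, hFm⟩ := hm
  have hx : 16 ≤ c3 * n := by
    rw [div_le_iff₀ h3] at hn
    linarith
  have hk' : (1 : ℝ) ≤ k := by exact_mod_cast hk
  have hk0 : (0 : ℝ) < k := by linarith
  set L : ℕ := ⌈6 * c3 * n * k / t⌉₊ with hL
  have hL1 : 6 * c3 * n * k / t ≤ (L : ℝ) := Nat.le_ceil _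
  have hL2 : (L : ℝ) ≤ 6 * c3 * n * k / t + 1 := by
    have := Nat.ceil_lt_add_one (show 0 ≤ 6 * c3 * n * k / t by positivity)
    linarith
  have hcore := core n r m k c3 h3 (fun W hW hWL g hg => by
      refine (hch r hr W hW hWL g hg).trans ?_
      have : Real.exp (-(c3' * n)) ≤ Real.exp (-(c3 * n)) := by
        apply Real.exp_le_exp.mpr
        have : c3 ≤ c3' := min_le_left _ _
        have : c3 * n ≤ c3' * n := by gcongr
        linarith
      gcongr) hmF (hmr r hr) hmn hX hFm hk t ht L hL1 x hgood W hW hWL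
  set s : ℝ := 1 / 12 * t / (4 * k) with hs
  have hs0 : 0 < s := by positivity
  have hs1 : s ≤ 1 / 48 := by
    rw [hs, div_le_iff₀ (by positivity)]
    nlinarith
  have h1 := genU (RR n) W hW.2.1 k hk x s (by linarith) L U hU (fun u hu => by
    refine (hUE u hu).trans (le_of_eq ?_)
    rw [hs]
    field_simp)
  have h2 : Real.exp (-(c3 * n / 2 + 1)) ≤ (1 - s) ^ (2 * L) := by
    have e1 : Real.exp (-(2 * s)) ≤ 1 - s := by
      have := Real.one_sub_inv_le_log_of_pos (show 0 < 1 - s by linarith)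
      have h5 : -(2 * s) ≤ Real.log (1 - s) := by
        refine le_trans ?_ this
        have : (1 - s)⁻¹ ≤ 1 + 2 * s := by
          rw [inv_le_comm₀ (by linarith) (by linarith), inv_le_iff_one_le_mul₀ (by linarith)]
          nlinarith
        linarith
      rw [← Real.le_log_iff_exp_le (by linarith)]
      exact h5
    calc Real.exp (-(c3 * n / 2 + 1)) ≤ Real.exp (((2 * L : ℕ) : ℝ) * (-(2 * s))) := by
          apply Real.exp_le_exp.mpr
          push_cast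
          have e2 : (L : ℝ) * s ≤ (6 * c3 * n * k / t + 1) * s := by gcongr
          have e3 : (6 * c3 * n * k / t + 1) * s = c3 * n / 8 + s := by
            rw [hs]
            field_simp
            ring
          nlinarith
      _ = Real.exp (-(2 * s)) ^ (2 * L) := by rw [← Real.exp_nat_mul]
      _ ≤ _ := pow_le_pow_left₀ (by positivity) e1 _
  have h4 : (Module.finrank ℂ U : ℝ) * Real.exp (-(c3 * n / 2 + 1)) ≤
      (2 * Real.exp (-(c3 * n))) * Module.finrank ℂ W := by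
    refine le_trans ?_ (h1.trans hcore)
    gcongr
  have h5 : (Module.finrank ℂ U : ℝ) = (Module.finrank ℂ U : ℝ) * Real.exp (-(c3 * n / 2 + 1)) *
      Real.exp (c3 * n / 2 + 1) := by
    rw [mul_assoc, ← Real.exp_add, neg_add_cancel, Real.exp_zero, mul_one]
  rw [h5]
  calc _ ≤ (2 * Real.exp (-(c3 * n))) * Module.finrank ℂ W * Real.exp (c3 * n / 2 + 1) := by gcongr
    _ = (2 * Real.exp (-(c3 * n) + (c3 * n / 2 + 1))) * Module.finrank ℂ W := by
        rw [Real.exp_add (-(c3 * (n : ℝ)))]; ring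
    _ ≤ Real.exp (-(c3 / 4 * n)) * Module.finrank ℂ W := by
        gcongr
        have h6 : (2 : ℝ) ≤ Real.exp 1 := by
          have := Real.add_one_le_exp (1 : ℝ)
          linarith
        calc 2 * Real.exp (-(c3 * n) + (c3 * n / 2 + 1)) ≤
            Real.exp 1 * Real.exp (-(c3 * n) + (c3 * n / 2 + 1)) := by gcongr
          _ = Real.exp (1 + (-(c3 * n) + (c3 * n / 2 + 1))) := by rw [← Real.exp_add]
          _ ≤ _ := by
            apply Real.exp_le_exp.mpr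
            linarith

end H87CG
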